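import Pool.Agent.KS6_38.ZS38.Tr

/-!
MP_37a859_an: almost central isometries.
-/

set_option autoImplicit false
set_option linter.unusedSectionVars false

noncomputable section

open scoped InnerProductSpace TensorProduct

namespace Pool.Agent.KS6_38.ZS38

open Pool.Agent.H188R3

/-- `O` has almost central pairs of isometries with orthogonal ranges: for every finite subset `F`
and every `ε > 0` there are isometries `s`, `t` with `s* t = 0` whose commutators with the elements
of `F` have norm at most `ε`. -/
def CentralIsometries (O : Type) [CStarAlgebra O] : Prop :=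
  ∀ (F : Finset O) (ε : ℝ), 0 < ε → ∃ s t : O, star s * s = 1 ∧ star t * t = 1 ∧ star s * t = 0 ∧
    ∀ x ∈ F, ‖s * x - x * s‖ ≤ ε ∧ ‖t * x - x * t‖ ≤ ε

/-- `φ` is a state -/
structure IsState {B : Type} [CStarAlgebra B] (φ : B →ₗ[ℂ] ℂ) : Prop where
  one : φ 1 = 1
  pos : ∀ x, 0 ≤ (φ (star x * x)).re ∧ (φ (star x * x)).im = 0

/-- There are a state `φ` and two unitaries `u`, `v` such that `φ` is almost tracial on the
elements which almost commute with `u` and `v`: if the commutators of `x` and `y` with `u` and `v`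
have norm at most `δ`, then `|φ(xy) - φ(yx)| ≤ 200 δ²`. -/
def TracialOnCentral (B : Type) [CStarAlgebra B] : Prop :=
  ∃ (φ : B →ₗ[ℂ] ℂ) (u v : B), IsState φ ∧ (star u * u = 1 ∧ u * star u = 1) ∧
    (star v * v = 1 ∧ v * star v = 1) ∧
    ∀ (x y : B) (δ : ℝ), ‖x * u - u * x‖ ≤ δ → ‖x * v - v * x‖ ≤ δ → ‖y * u - u * y‖ ≤ δ →
      ‖y * v - v * y‖ ≤ δ → ‖φ (x * y) - φ (y * x)‖ ≤ 200 * δ ^ 2

lemma norm_le_one_of_iso {A : Type} [CStarAlgebra A] {s : A} (h : star s * s = 1) : ‖s‖ ≤ 1 := by
  have h2 := congrArg norm h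
  rw [CStarRing.norm_star_mul_self] at h2
  have : ‖(1 : A)‖ ≤ 1 := by
    rcases subsingleton_or_nontrivial A with h | h
    · rw [Subsingleton.elim (1 : A) 0, norm_zero]; exact zero_le_one
    · exact CStarRing.norm_one.le
  nlinarith [norm_nonneg s]

/-- a C*-tensor product with an algebra with almost central isometries has almost central
isometries -/
theorem CentralIsometries.tensor {A O T : Type} [CStarAlgebra A] [CStarAlgebra O] [CStarAlgebra T]
    (hO : CentralIsometries O) (f : A →⋆ₐ[ℂ] T) (g : O →⋆ₐ[ℂ] T)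
    (hc : ∀ a b, f a * g b = g b * f a) (hd : DenseRange (prodMap f g)) :
    CentralIsometries T := by
  classical
  have hg : ∀ x, ‖g x‖ ≤ ‖x‖ := fun x => Pool.Agent.H188R3.norm_map_le' g x
  have alg : ∀ y : A ⊗[ℂ] O, ∃ (F : Finset O) (K : ℝ), 0 ≤ K ∧ ∀ (t : O) (δ : ℝ), 0 ≤ δ →
      (∀ x ∈ F, ‖t * x - x * t‖ ≤ δ) →
      ‖g t * prodMap f g y - prodMap f g y * g t‖ ≤ K * δ := by
    intro y
    induction y using TensorProduct.induction_on with
    | zero =>
      refine ⟨∅, 0, le_rfl, fun t δ hδ _ => ?_⟩
      rw [map_zero]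
      simp
    | tmul a b =>
      refine ⟨{b}, ‖f a‖, norm_nonneg _, fun t δ hδ h => ?_⟩
      rw [prodMap_tmul]
      have e : g t * (f a * g b) - f a * g b * g t = f a * g (t * b - b * t) := by
        rw [← mul_assoc, ← hc a t, map_sub, map_mul, map_mul, mul_sub, mul_assoc, mul_assoc]
      rw [e]
      refine (norm_mul_le _ _).trans ?_
      gcongr
      exact (hg _).trans (h b (Finset.mem_singleton_self b))
    | add y z hy hz =>
      obtain ⟨F1, K1, hK1, h1⟩ := hy
      obtain ⟨F2, K2, hK2, h2⟩ := hz
      refine ⟨F1 ∪ F2, K1 + K2, by positivity, fun t δ hδ h => ?_⟩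
      have e : g t * prodMap f g (y + z) - prodMap f g (y + z) * g t =
          (g t * prodMap f g y - prodMap f g y * g t) +
          (g t * prodMap f g z - prodMap f g z * g t) := by
        rw [map_add]; noncomm_ring
      rw [e, add_mul]
      refine (norm_add_le _ _).trans (add_le_add ?_ ?_)
      · exact h1 t δ hδ fun x hx => h x (Finset.mem_union_left _ hx)
      · exact h2 t δ hδ fun x hx => h x (Finset.mem_union_right _ hx)
  intro F ε hε
  have app : ∀ x : T, ∃ y : A ⊗[ℂ] O, ‖x - prodMap f g y‖ < ε / 4 := by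
    intro x
    obtain ⟨_, ⟨y, rfl⟩, hy⟩ := Metric.mem_closure_iff.1 (hd x) (ε / 4) (by positivity)
    exact ⟨y, by rwa [dist_eq_norm] at hy⟩
  choose ap hap using app
  choose G K hK hG using alg
  let GF : Finset O := F.biUnion fun x => G (ap x)
  let KF : ℝ := ∑ x ∈ F, K (ap x)
  have hKF : 0 ≤ KF := Finset.sum_nonneg fun x _ => hK _
  obtain ⟨s, t, hs, ht, hst, hcom⟩ := hO GF (ε / (2 * (KF + 1))) (by positivity)
  have gen : ∀ w : O, star w * w = 1 → (∀ x ∈ GF, ‖w * x - x * w‖ ≤ ε / (2 * (KF + 1))) →
      ∀ x ∈ F, ‖g w * x - x * g w‖ ≤ ε := by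
    intro w hw hwc x hx
    have h1 := hG (ap x) w (ε / (2 * (KF + 1))) (by positivity) fun z hz =>
      hwc z (Finset.mem_biUnion.2 ⟨x, hx, hz⟩)
    have h2 : K (ap x) ≤ KF := Finset.single_le_sum (f := fun x => K (ap x)) (fun x _ => hK _) hx
    have h3 : K (ap x) * (ε / (2 * (KF + 1))) ≤ ε / 2 := by
      rw [mul_div_assoc', div_le_div_iff₀ (by positivity) (by positivity)]
      nlinarith [hK (ap x)]
    have hgw : ‖g w‖ ≤ 1 := (hg w).trans (norm_le_one_of_iso hw)
    have e : g w * x - x * g w = (g w * prodMap f g (ap x) - prodMap f g (ap x) * g w) +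
        (g w * (x - prodMap f g (ap x)) - (x - prodMap f g (ap x)) * g w) := by noncomm_ring
    rw [e]
    have h4 : ‖g w * (x - prodMap f g (ap x))‖ ≤ ε / 4 := by
      refine (norm_mul_le _ _).trans ?_
      have := (hap x).le
      calc ‖g w‖ * ‖x - prodMap f g (ap x)‖ ≤ 1 * (ε / 4) := by gcongr
        _ = _ := one_mul _
    have h5 : ‖(x - prodMap f g (ap x)) * g w‖ ≤ ε / 4 := by
      refine (norm_mul_le _ _).trans ?_
      have := (hap x).le
      calc ‖x - prodMap f g (ap x)‖ * ‖g w‖ ≤ (ε / 4) * 1 := by gcongr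
        _ = _ := mul_one _
    have h6 := norm_sub_le (g w * (x - prodMap f g (ap x))) ((x - prodMap f g (ap x)) * g w)
    refine (norm_add_le _ _).trans ?_
    linarith
  refine ⟨g s, g t, ?_, ?_, ?_, fun x hx => ⟨?_, ?_⟩⟩
  · rw [← map_star, ← map_mul, hs, map_one]
  · rw [← map_star, ← map_mul, ht, map_one]
  · rw [← map_star, ← map_mul, hst, map_zero]
  · exact gen s hs (fun x hx => (hcom x hx).1) x hx
  · exact gen t ht (fun x hx => (hcom x hx).2) x hx

/-- almost central isometries are preserved by isomorphisms -/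
theorem CentralIsometries.equiv {A B : Type} [CStarAlgebra A] [CStarAlgebra B]
    (h : CentralIsometries A) (e : B ≃⋆ₐ[ℂ] A) : CentralIsometries B := by
  classical
  intro F ε hε
  obtain ⟨s, t, hs, ht, hst, hc⟩ := h (F.image e) ε hε
  have hn : ∀ x : A, ‖e.symm x‖ ≤ ‖x‖ := fun x =>
    Pool.Agent.H188R3.norm_map_le' (e.symm : A →⋆ₐ[ℂ] B) x
  have key : ∀ (w : A) (x : B), e.symm w * x - x * e.symm w = e.symm (w * e x - e x * w) := by
    intro w x
    rw [map_sub, map_mul, map_mul, StarAlgEquiv.symm_apply_apply]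
  refine ⟨e.symm s, e.symm t, ?_, ?_, ?_, fun x hx => ⟨?_, ?_⟩⟩
  · rw [← map_star, ← map_mul, hs, map_one]
  · rw [← map_star, ← map_mul, ht, map_one]
  · rw [← map_star, ← map_mul, hst, map_zero]
  · rw [key]
    exact (hn _).trans (hc (e x) (Finset.mem_image_of_mem _ hx)).1
  · rw [key]
    exact (hn _).trans (hc (e x) (Finset.mem_image_of_mem _ hx)).2

/-- an algebra with a state which is tracial on central sequences has no almost central isometries
with orthogonal ranges -/
theorem TracialOnCentral.not_central {B : Type} [CStarAlgebra B] (h : TracialOnCentral B) :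
    ¬ CentralIsometries B := by
  classical
  obtain ⟨φ, u, v, hφ, ⟨hu1, hu2⟩, ⟨hv1, hv2⟩, htr⟩ := h
  intro hC
  obtain ⟨s, t, hs, ht, hst, hc⟩ := hC {u, v} (1 / 40) (by norm_num)
  have big : ∀ w : B, star w * w = 1 → (∀ x ∈ ({u, v} : Finset B), ‖w * x - x * w‖ ≤ 1 / 40) →
      7 / 8 ≤ (φ (w * star w)).re := by
    intro w hw hwc
    have h1 := htr w (star w) (1 / 40) (hwc u (by simp)) (hwc v (by simp))
      ((norm_comm_star w u hu1 hu2).trans (hwc u (by simp)))
      ((norm_comm_star w v hv1 hv2).trans (hwc v (by simp)))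
    rw [hw, hφ.one] at h1
    have h2 := (Complex.abs_re_le_norm _).trans h1
    rw [Complex.sub_re, Complex.one_re, abs_le] at h2
    norm_num at h2
    linarith [h2.1]
  have h1 := big s hs fun x hx => (hc x hx).1
  have h2 := big t ht fun x hx => (hc x hx).2
  have hts : star t * s = 0 := by
    have := congrArg star hst
    rwa [star_mul, star_star, star_zero] at this
  have h3 := (hφ.pos (1 - s * star s - t * star t)).1
  have e : star (1 - s * star s - t * star t) * (1 - s * star s - t * star t) =
      1 - s * star s - t * star t := by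
    have e1 : star (1 - s * star s - t * star t) = 1 - s * star s - t * star t := by
      simp only [star_sub, star_one, star_mul, star_star]
    rw [e1]
    have p1 : s * star s * (s * star s) = s * star s := by
      calc s * star s * (s * star s) = s * (star s * s) * star s := by noncomm_ring
        _ = _ := by rw [hs, mul_one]
    have p2 : t * star t * (t * star t) = t * star t := by
      calc t * star t * (t * star t) = t * (star t * t) * star t := by noncomm_ring
        _ = _ := by rw [ht, mul_one]
    have p3 : s * star s * (t * star t) = 0 := by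
      calc s * star s * (t * star t) = s * (star s * t) * star t := by noncomm_ring
        _ = _ := by rw [hst, mul_zero, zero_mul]
    have p4 : t * star t * (s * star s) = 0 := by
      calc t * star t * (s * star s) = t * (star t * s) * star s := by noncomm_ring
        _ = _ := by rw [hts, mul_zero, zero_mul]
    calc (1 - s * star s - t * star t) * (1 - s * star s - t * star t)
        = 1 - s * star s - t * star t - s * star s - t * star t + s * star s * (s * star s) +
          t * star t * (t * star t) + s * star s * (t * star t) + t * star t * (s * star s) := by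
            noncomm_ring
      _ = _ := by rw [p1, p2, p3, p4]; abel
  rw [e, map_sub, map_sub, hφ.one, Complex.sub_re, Complex.sub_re, Complex.one_re] at h3
  linarith

/-- `O_∞` has almost central isometries -/
theorem central_cuntz {O : Type} [CStarAlgebra O] (h : Pool.Agent.W658.ZS.IsCuntzInfinity O) :
    CentralIsometries O := by
  classical
  obtain ⟨-, so, hs1, hs2, hs3⟩ := h
  intro F ε hε
  obtain ⟨t, ht1, ht2, ht3⟩ := Pool.Agent.W658.ZS.central_isoms so (fun i j => by
      by_cases h : i = j
      · subst h; rw [if_pos rfl]; exact hs1 i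
      · rw [if_neg h]; exact hs2 i j h) (fun S hS hS2 => by
        rw [eq_top_iff, ← hs3]
        refine StarSubalgebra.topologicalClosure_minimal (StarAlgebra.adjoin_le ?_) hS
        rintro _ ⟨i, rfl⟩
        exact hS2 i) (StarAlgHom.ofId ℂ O) (StarAlgHom.id ℂ O)
        (fun a b => Algebra.commutes a b)
        (by
          have : Function.Surjective (prodMap (StarAlgHom.ofId ℂ O) (StarAlgHom.id ℂ O)) := by
            intro x
            refine ⟨1 ⊗ₜ[ℂ] x, ?_⟩
            rw [prodMap_tmul, map_one, one_mul]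
            rfl
          exact this.denseRange) F hε
  exact ⟨t 0, t 1, ht1 0, ht1 1, ht2, fun x hx => ⟨(ht3 0 x hx).le, (ht3 1 x hx).le⟩⟩

end Pool.Agent.KS6_38.ZS38
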