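import Pool.Agent.KS6_38.ZS38.Dens

/-!
MP_37a859_an: the density character of `B`.
-/

set_option autoImplicit false
set_option linter.unusedSectionVars false

noncomputable section

open scoped InnerProductSpace Cardinal

namespace Pool.Agent.KS6_38.ZS38

open Cardinal
open Pool.CS Pool.CS.N_amp
open Pool.Agent.W658.ZS (Wd BW u s r sw PP Om act BB Ca Sh ze Sq Amp dlt_self inner_dlt_left
  norm_dlt star_hom_continuous Bt_le Ca_le PP_mem PP_u WE_dlt act_Om dlt_ne)

/-- `κ` is the density character of `B`: the least cardinality of a dense subset -/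
def HasDensity (B : Type) [TopologicalSpace B] (κ : Cardinal.{0}) : Prop :=
  (∃ D : Set B, Dense D ∧ #D = κ) ∧ ∀ D : Set B, Dense D → κ ≤ #D

section low

variable {G : Type} [Group G] {Y : Type}

lemma u_dist (y : Y) {g h : G} (hgh : g ≠ h) : 1 ≤ ‖u Y g - u Y h‖ := by
  have e1 : (u Y g - u Y h : BW G Y) (dlt (Om, y)) = dlt (([], g), y) - dlt (([], h), y) := by
    have h1 : (u Y g : BW G Y) (dlt (Om, y)) = dlt (([], g), y) := by
      unfold u
      rw [WE_dlt, act_Om]
    have h2 : (u Y h : BW G Y) (dlt (Om, y)) = dlt (([], h), y) := by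
      unfold u
      rw [WE_dlt, act_Om]
    rw [sub_apply, h1, h2]
  have e2 : ⟪(dlt (([], g), y) : l2 (Wd G × Y)), (u Y g - u Y h : BW G Y) (dlt (Om, y))⟫_ℂ = 1 := by
    rw [e1, inner_dlt_left]
    show (dlt (([], g), y) : l2 (Wd G × Y)) (([], g), y) -
      (dlt (([], h), y) : l2 (Wd G × Y)) (([], g), y) = 1
    rw [dlt_self, dlt_ne (fun h' => hgh (by simpa using h')), sub_zero]
  have h3 := norm_inner_le_norm (𝕜 := ℂ) (dlt (([], g), y) : l2 (Wd G × Y))
    ((u Y g - u Y h : BW G Y) (dlt (Om, y)))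
  rw [e2, norm_one, norm_dlt, one_mul] at h3
  refine h3.trans ((ContinuousLinearMap.le_opNorm _ _).trans ?_)
  rw [norm_dlt, mul_one]

end low

variable {Z : Type} [CStarAlgebra Z] {I : Type} (π : Z →⋆ₐ[ℂ] (l2 I →L[ℂ] l2 I))

theorem PP_card {G Y : Type} [Group G] (κ : Cardinal.{0}) (hκ : ℵ₀ ≤ κ) (hG : #G ≤ κ) :
    #(PP G Y) ≤ κ := by
  have h1 : PP G Y ⊆ {0} ∪ Set.range (fun q : List G × G × List G =>
      sw Y q.1 * u Y q.2.1 * star (sw Y q.2.2)) := by
    rintro p (rfl | ⟨a, h, b, rfl⟩)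
    · exact Or.inl rfl
    · exact Or.inr ⟨(a, h, b), rfl⟩
  have hL : #(List G) ≤ κ := by
    refine (Cardinal.mk_list_le_max G).trans ?_
    exact max_le hκ hG
  refine (Cardinal.mk_le_mk_of_subset h1).trans ((Cardinal.mk_union_le _ _).trans ?_)
  refine Cardinal.add_le_of_le hκ ?_ ?_
  · rw [Cardinal.mk_singleton]
    exact (Cardinal.one_le_aleph0).trans hκ
  · refine Cardinal.mk_range_le.trans ?_
    rw [Cardinal.mk_prod, Cardinal.lift_id, Cardinal.lift_id, Cardinal.mk_prod, Cardinal.lift_id,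
      Cardinal.lift_id]
    exact Cardinal.mul_le_of_le hκ hL (Cardinal.mul_le_of_le hκ hG hL)

theorem BB_dense [Nonempty I] {G : Type} [Group G] (κ : Cardinal.{0}) (hκ : ℵ₀ ≤ κ) (hG : #G ≤ κ)
    (D : Set Z) (hD : Dense D) (hDκ : #D ≤ κ) :
    ∃ D' : Set (BB π G), Dense D' ∧ #D' ≤ κ := by
  let Sg : Set (BW G (Sq I)) := PP G (Sq I) ∪
    Set.range (fun q : ℕ × D => Amp G ((Sh I)^[q.1] (ze I (π q.2))))
  have hS : #Sg ≤ κ := by
    refine (Cardinal.mk_union_le _ _).trans (Cardinal.add_le_of_le hκ (PP_card κ hκ hG) ?_)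
    refine Cardinal.mk_range_le.trans ?_
    rw [Cardinal.mk_prod, Cardinal.lift_id, Cardinal.lift_id, Cardinal.mk_nat]
    exact Cardinal.mul_le_of_le hκ hκ hDκ
  obtain ⟨D1, hD1, hD2⟩ := dense_of_gen Sg κ hκ hS
  have hB : (BB π G : Set (BW G (Sq I))) ⊆ closure D1 := by
    refine Set.Subset.trans ?_ hD2
    have hcl : IsClosed ((StarAlgebra.adjoin ℂ Sg).topologicalClosure : Set (BW G (Sq I))) :=
      StarSubalgebra.isClosed_topologicalClosure _
    have hin : ∀ x ∈ Sg, x ∈ (StarAlgebra.adjoin ℂ Sg).topologicalClosure := fun x hx =>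
      (StarAlgebra.adjoin ℂ Sg).le_topologicalClosure (StarAlgebra.subset_adjoin ℂ _ hx)
    have key : BB π G ≤ (StarAlgebra.adjoin ℂ Sg).topologicalClosure := by
      apply Bt_le G _ _ hcl
      · intro p hp
        exact hin p (Or.inl hp)
      · have h3 : Ca π ≤ ((StarAlgebra.adjoin ℂ Sg).topologicalClosure).comap (Amp G) := by
          apply Ca_le π
          · exact hcl.preimage (star_hom_continuous (Amp G))
          · intro n z
            show Amp G ((Sh I)^[n] (ze I (π z))) ∈ (StarAlgebra.adjoin ℂ Sg).topologicalClosure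
            have hc : Continuous fun z : Z => Amp G ((Sh I)^[n] (ze I (π z))) :=
              (star_hom_continuous (Amp G)).comp (((star_hom_continuous (Sh I)).iterate n).comp
                ((star_hom_continuous (ze I)).comp (star_hom_continuous π)))
            have h4 : closure D ⊆ (fun z : Z => Amp G ((Sh I)^[n] (ze I (π z)))) ⁻¹'
                ((StarAlgebra.adjoin ℂ Sg).topologicalClosure : Set (BW G (Sq I))) := by
              refine closure_minimal ?_ (hcl.preimage hc)
              intro d hd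
              exact hin _ (Or.inr ⟨(n, ⟨d, hd⟩), rfl⟩)
            exact h4 (hD z)
        exact fun c hc => h3 hc
    exact key
  exact dense_sub (BB π G : Set (BW G (Sq I))) D1 κ hκ hD1 hB

theorem BB_density [Nonempty I] {X : Type} [Infinite X] (D : Set Z) (hD : Dense D) (hDκ : #D ≤ #X) :
    HasDensity (BB π (FreeGroup X)) #X := by
  classical
  have hκ : ℵ₀ ≤ #X := Cardinal.aleph0_le_mk X
  have hG : #(FreeGroup X) ≤ #X := by
    rw [Cardinal.mk_freeGroup]
    exact max_le le_rfl hκ
  have low : ∀ D : Set (BB π (FreeGroup X)), Dense D → #X ≤ #D := by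
    intro D' hD'
    obtain ⟨i⟩ := (inferInstance : Nonempty I)
    let U : X → BB π (FreeGroup X) := fun x =>
      ⟨u (Sq I) (FreeGroup.of x), PP_mem _ (PP_u _)⟩
    have h1 : ∀ x, ∃ d ∈ D', dist (U x) d < 1 / 2 := fun x =>
      Metric.mem_closure_iff.1 (hD' (U x)) (1 / 2) (by norm_num)
    choose F hF hF2 using h1
    refine Cardinal.mk_le_of_injective (f := fun x => (⟨F x, hF x⟩ : D')) ?_
    intro x y hxy
    by_contra hne
    have h2 : F x = F y := congrArg Subtype.val hxy
    have h3 := hF2 x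
    have h4 := hF2 y
    rw [← h2] at h4
    have h5 : dist (U x) (U y) < 1 := by
      have := dist_triangle_right (U x) (U y) (F x)
      linarith
    have h6 : dist (U x) (U y) = ‖u (Sq I) (FreeGroup.of x) - u (Sq I) (FreeGroup.of y)‖ := by
      rw [dist_eq_norm]; rfl
    rw [h6] at h5
    have h7 := u_dist (Y := Sq I) (fun _ => i)
      (fun h => hne (FreeGroup.of_injective h) : FreeGroup.of x ≠ FreeGroup.of y)
    linarith
  obtain ⟨D', hD', hc⟩ := BB_dense π #X hκ hG D hD hDκ
  exact ⟨⟨D', hD', le_antisymm hc (low D' hD')⟩, low⟩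

end Pool.Agent.KS6_38.ZS38
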