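import Pool.Agent.KS6_38.ZS38.Free
import Mathlib.Algebra.FreeAlgebra.Cardinality

/-!
MP_37a859_an: density characters.
-/

set_option autoImplicit false
set_option linter.unusedSectionVars false

noncomputable section

open scoped InnerProductSpace Cardinal

namespace Pool.Agent.KS6_38.ZS38

open Cardinal

/-- a star algebra generated by at most `κ` elements has a dense subset with at most `κ` elements -/
theorem dense_of_gen {A : Type} [CStarAlgebra A] (S : Set A) (κ : Cardinal.{0}) (hκ : ℵ₀ ≤ κ)
    (hS : #S ≤ κ) : ∃ D : Set A, #D ≤ κ ∧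
      ((StarAlgebra.adjoin ℂ S).topologicalClosure : Set A) ⊆ closure D := by
  obtain ⟨Q, hQc, hQd⟩ := TopologicalSpace.exists_countable_dense ℂ
  let S0 : Set A := S ∪ algebraMap ℂ A '' Q
  let S1 : Set A := S0 ∪ star '' S0
  let R : Subalgebra ℤ A := Algebra.adjoin ℤ S1
  have hQ : #Q ≤ κ := (Cardinal.le_aleph0_iff_set_countable.2 hQc).trans hκ
  have hS0 : #S0 ≤ κ := by
    refine (Cardinal.mk_union_le _ _).trans ?_
    exact Cardinal.add_le_of_le hκ hS (Cardinal.mk_image_le.trans hQ)
  have hS1 : #S1 ≤ κ := by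
    refine (Cardinal.mk_union_le _ _).trans ?_
    exact Cardinal.add_le_of_le hκ hS0 (Cardinal.mk_image_le.trans hS0)
  have hR : #R ≤ κ := by
    refine (Algebra.cardinalMk_adjoin_le ℤ S1).trans ?_
    refine sup_le (sup_le ?_ hS1) hκ
    exact (Cardinal.mk_le_aleph0).trans hκ
  have hRstar : ∀ x ∈ R, star x ∈ R := by
    intro x hx
    induction hx using Algebra.adjoin_induction with
    | mem x hx =>
      apply Algebra.subset_adjoin
      rcases hx with hx | ⟨y, hy, rfl⟩
      · exact Or.inr ⟨x, hx, rfl⟩
      · rw [star_star]; exact Or.inl hy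
    | algebraMap r =>
      have : star (algebraMap ℤ A r) = algebraMap ℤ A r := by
        simp
      rw [this]
      exact R.algebraMap_mem r
    | add x y _ _ h1 h2 => rw [star_add]; exact R.add_mem h1 h2
    | mul x y _ _ h1 h2 => rw [star_mul]; exact R.mul_mem h2 h1
  let K : StarSubalgebra ℂ A :=
    { carrier := closure (R : Set A)
      mul_mem' := by
        intro a b ha hb
        exact map_mem_closure₂ continuous_mul ha hb (fun a ha b hb => R.mul_mem ha hb)
      add_mem' := by
        intro a b ha hb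
        exact map_mem_closure₂ continuous_add ha hb (fun a ha b hb => R.add_mem ha hb)
      algebraMap_mem' := by
        intro c
        have h1 : c ∈ closure Q := hQd c
        refine map_mem_closure (continuous_algebraMap ℂ A) h1 ?_
        intro q hq
        exact Algebra.subset_adjoin (Or.inl (Or.inr ⟨q, hq, rfl⟩))
      star_mem' := by
        intro a ha
        exact map_mem_closure continuous_star ha hRstar }
  have hK : (StarAlgebra.adjoin ℂ S).topologicalClosure ≤ K := by
    refine StarSubalgebra.topologicalClosure_minimal (StarAlgebra.adjoin_le ?_) isClosed_closure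
    intro x hx
    exact subset_closure (Algebra.subset_adjoin (Or.inl (Or.inl hx)))
  exact ⟨(R : Set A), hR, hK⟩

/-- a subset of a metric space covered by the closure of a small set has a small dense subset -/
theorem dense_sub {A : Type} [MetricSpace A] (B D : Set A) (κ : Cardinal.{0}) (hκ : ℵ₀ ≤ κ)
    (hD : #D ≤ κ) (h : B ⊆ closure D) : ∃ D' : Set B, Dense D' ∧ #D' ≤ κ := by
  classical
  let P : Set (D × ℕ) := {q | ∃ b : B, dist (b : A) q.1 < 1 / (q.2 + 1)}
  have hP : ∀ q : P, ∃ b : B, dist (b : A) q.1.1 < 1 / (q.1.2 + 1) := fun q => q.2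
  choose F hF using hP
  refine ⟨Set.range F, ?_, ?_⟩
  · rw [Metric.dense_iff]
    intro b r hr
    obtain ⟨n, hn⟩ := exists_nat_one_div_lt (show 0 < r / 2 by positivity)
    obtain ⟨d, hd, hbd⟩ := Metric.mem_closure_iff.1 (h b.2) (1 / (n + 1)) (by positivity)
    let q : P := ⟨(⟨d, hd⟩, n), ⟨b, hbd⟩⟩
    refine ⟨F q, ?_, ⟨q, rfl⟩⟩
    rw [Metric.mem_ball]
    have h1 : dist (F q : A) d < 1 / (n + 1) := hF q
    have h2 : dist (F q : A) (b : A) ≤ dist (F q : A) d + dist d (b : A) := dist_triangle _ _ _
    rw [dist_comm d] at h2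
    rw [Subtype.dist_eq]
    linarith
  · refine Cardinal.mk_range_le.trans ?_
    refine (Cardinal.mk_set_le P).trans ?_
    rw [Cardinal.mk_prod, Cardinal.lift_id, Cardinal.lift_id, Cardinal.mk_nat]
    exact Cardinal.mul_le_of_le hκ hD hκ

end Pool.Agent.KS6_38.ZS38
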