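import Pool.Graph.R_seed8.W658.ZS.Final

/-!
MP_37a859_an: the spectral gap for free groups of arbitrary rank, and the tracial estimate.
-/

set_option autoImplicit false
set_option linter.unusedSectionVars false

noncomputable section

open scoped InnerProductSpace

namespace Pool.Agent.KS6_38.ZS38

open Pool.CS Pool.CS.N_amp
open Pool.Agent.W658.ZS (Wd BW u s r sw PP Om act rgt pe Qm gap Vi Vr E Bt Res Amp pe_eq_nil pe_eq_cons pe_symm)

section words

variable {X : Type} [DecidableEq X]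

/-- last letter of the reduced word -/
def lw (g : FreeGroup X) : Option (X × Bool) := g.toWord.getLast?

/-- a letter -/
def lx (x : X) (e : Bool) : FreeGroup X := FreeGroup.mk [(x, e)]

omit [DecidableEq X] in
lemma lx_inv (x : X) (e : Bool) : (lx x e)⁻¹ = lx x (!e) := by
  unfold lx
  rw [FreeGroup.inv_mk]
  rfl

lemma lw_one : lw (1 : FreeGroup X) = none := by
  unfold lw
  rw [FreeGroup.toWord_one]; rfl

lemma lw_eq_none {g : FreeGroup X} (h : lw g = none) : g = 1 := by
  unfold lw at h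
  rw [List.getLast?_eq_none_iff] at h
  exact FreeGroup.toWord_eq_nil_iff.1 h

lemma lw_mul_right {g : FreeGroup X} {x : X} (e : Bool) (h : ∀ e', lw g ≠ some (x, e')) :
    lw (g * lx x e) = some (x, e) := by
  have hr : FreeGroup.IsReduced (g.toWord ++ [(x, e)]) := by
    unfold FreeGroup.IsReduced
    rw [List.isChain_append]
    refine ⟨FreeGroup.isReduced_toWord, by simp, ?_⟩
    rintro ⟨y, e'⟩ hy ⟨z, e''⟩ hz hyz
    simp only [List.head?_cons, Option.mem_some_iff, Prod.mk.injEq] at hz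
    exfalso
    apply h e'
    unfold lw
    rw [Option.mem_def] at hy
    rw [hy]
    simp only at hyz
    rw [hyz, ← hz.1]
  have h1 : (g * lx x e).toWord = g.toWord ++ [(x, e)] := by
    rw [FreeGroup.toWord_mul]
    unfold lx
    rw [FreeGroup.toWord_mk, FreeGroup.reduce_singleton]
    exact hr.reduce_eq
  unfold lw
  rw [h1]
  simp

lemma lw_mul_left {g : FreeGroup X} {x y : X} {e' : Bool} (e : Bool) (hxy : x ≠ y)
    (h : lw g = some (y, e')) : lw (lx x e * g) = some (y, e') := by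
  unfold lw at h ⊢
  have h1 : (lx x e * g).toWord = FreeGroup.reduce ((x, e) :: g.toWord) := by
    rw [FreeGroup.toWord_mul]
    unfold lx
    rw [FreeGroup.toWord_mk, FreeGroup.reduce_singleton]
    rfl
  rw [h1, FreeGroup.reduce.cons, FreeGroup.reduce_toWord]
  rcases hL : g.toWord with _ | ⟨hd, tl⟩
  · rw [hL] at h; simp at h
  · rw [hL] at h
    show (if (x, e).1 = hd.1 ∧ (x, e).2 = !hd.2 then tl else (x, e) :: hd :: tl).getLast? = _
    split_ifs with hc
    · rcases tl with _ | ⟨hd', tl'⟩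
      · simp only [List.getLast?_singleton, Option.some.injEq] at h
        exfalso
        apply hxy
        have := hc.1
        rw [h] at this
        exact this
      · rwa [List.getLast?_cons_cons] at h
    · rwa [List.getLast?_cons_cons]

lemma lw_conj {g : FreeGroup X} {x y : X} {e' : Bool} (e1 e2 : Bool) (hxy : x ≠ y)
    (h : lw g = some (y, e')) : lw (lx x e1 * g * lx x e2) = some (x, e2) := by
  apply lw_mul_right
  intro e''
  rw [lw_mul_left e1 hxy h]
  intro h1
  simp only [Option.some.injEq, Prod.mk.injEq] at h1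
  exact hxy h1.1.symm

variable (Y : Type)

/-- the set of the paradoxical decomposition -/
def SF (a : X) : Set (Wd (FreeGroup X) × Y) := {q | ∃ e, lw q.1.2 = some (a, e)}

/-- the fixed points -/
def XF (X : Type) [DecidableEq X] : Set (Wd (FreeGroup X) × Y) := {q | q.1 = Om}

variable {Y}

lemma mem_SF (a : X) (l : List (FreeGroup X)) (g : FreeGroup X) (y : Y) :
    (((l, g), y) : Wd (FreeGroup X) × Y) ∈ SF Y a ↔ ∃ e, lw g = some (a, e) := Iff.rfl

theorem SF_h1 (a : X) (q : Wd (FreeGroup X) × Y) :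
    q ∈ XF Y X ∨ q ∈ SF Y a ∨ (pe Y (lx a true)).symm q ∈ SF Y a := by
  obtain ⟨⟨l, g⟩, y⟩ := q
  rw [pe_symm, lx_inv]
  by_cases hS : ∃ e, lw g = some (a, e)
  · exact Or.inr (Or.inl hS)
  push Not at hS
  rcases l with _ | ⟨x, l⟩
  · by_cases hg : g = 1
    · left; subst hg; rfl
    right; right
    rw [pe_eq_nil, mem_SF, lx_inv]
    rcases h : lw g with _ | ⟨x, e⟩
    · exact absurd (lw_eq_none h) hg
    · have hx : a ≠ x := by
        rintro rfl
        exact hS e h
      exact ⟨_, lw_conj _ _ hx h⟩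
  · right; right
    rw [pe_eq_cons, mem_SF, lx_inv]
    exact ⟨_, lw_mul_right _ hS⟩

/-- elements moved into `S` by `b^{±}` -/
lemma moved {a b : X} (hab : a ≠ b) (ε : Bool) (l : List (FreeGroup X)) (g : FreeGroup X) (y : Y)
    (h : pe Y (lx b ε) ((l, g), y) ∈ SF Y a) : lw g = some (b, ε) := by
  have key : ∀ k : FreeGroup X, (∃ e, lw k = some (a, e)) → lw (k * lx b ε) = some (b, ε) := by
    rintro k ⟨e, he⟩
    apply lw_mul_right
    intro e' h'
    rw [he] at h'
    simp only [Option.some.injEq, Prod.mk.injEq] at h'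
    exact hab h'.1
  rcases l with _ | ⟨x, l⟩
  · rw [pe_eq_nil, mem_SF] at h
    obtain ⟨e, he⟩ := h
    have h1 := lw_conj (x := b) (!ε) ε (Ne.symm hab) he
    rw [lx_inv] at h1
    have e2 : lx b (!ε) * (lx b ε * g * lx b (!ε)) * lx b ε = g := by
      rw [← lx_inv b ε]; group
    rwa [e2] at h1
  · rw [pe_eq_cons, mem_SF] at h
    have h1 := key _ h
    rwa [inv_mul_cancel_right] at h1

theorem SF_h2 {a b : X} (hab : a ≠ b) (q : Wd (FreeGroup X) × Y) (hq : q ∈ XF Y X) :
    q ∉ SF Y a ∧ (pe Y (lx b true)).symm q ∉ SF Y a ∧ pe Y (lx b true) q ∉ SF Y a := by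
  obtain ⟨⟨l, g⟩, y⟩ := q
  have h1 : (l, g) = Om := hq
  unfold Om at h1
  obtain ⟨rfl, rfl⟩ := Prod.mk.inj h1
  refine ⟨?_, ?_, ?_⟩
  · rintro ⟨e, he⟩
    rw [show (([], 1), y).1.2 = (1 : FreeGroup X) from rfl, lw_one] at he
    simp at he
  · rw [pe_symm, lx_inv]
    intro h
    have := moved hab _ _ _ _ h
    rw [lw_one] at this
    simp at this
  · intro h
    have := moved hab _ _ _ _ h
    rw [lw_one] at this
    simp at this

theorem SF_h3 {a b : X} (hab : a ≠ b) (q : Wd (FreeGroup X) × Y) (hq : q ∈ SF Y a) :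
    (pe Y (lx b true)).symm q ∉ SF Y a ∧ pe Y (lx b true) q ∉ SF Y a := by
  obtain ⟨⟨l, g⟩, y⟩ := q
  rw [mem_SF] at hq
  obtain ⟨e, he⟩ := hq
  constructor
  · rw [pe_symm, lx_inv]
    intro h
    have := moved hab _ _ _ _ h
    rw [he] at this
    simp only [Option.some.injEq, Prod.mk.injEq] at this
    exact hab this.1
  · intro h
    have := moved hab _ _ _ _ h
    rw [he] at this
    simp only [Option.some.injEq, Prod.mk.injEq] at this
    exact hab this.1

theorem SF_h4 {a b : X} (hab : a ≠ b) (q : Wd (FreeGroup X) × Y) :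
    ¬ ((pe Y (lx b true)).symm q ∈ SF Y a ∧ pe Y (lx b true) q ∈ SF Y a) := by
  obtain ⟨⟨l, g⟩, y⟩ := q
  rintro ⟨h1, h2⟩
  rw [pe_symm, lx_inv] at h1
  have h3 := moved hab _ _ _ _ h1
  have h4 := moved hab _ _ _ _ h2
  rw [h3] at h4
  simp at h4

lemma Qm_XF (f : l2 (Wd (FreeGroup X) × Y)) : Qm f (XF Y X) = ‖Vr (FreeGroup X) f‖ ^ 2 := by
  rw [← Pool.Agent.W658.ZS.norm_res_val, norm_sq, norm_sq]
  let e : Y ≃ XF Y X :=
    { toFun := fun y => ⟨(Om, y), rfl⟩
      invFun := fun q => q.1.2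
      left_inv := fun y => rfl
      right_inv := fun q => by
        obtain ⟨⟨w, y⟩, hq⟩ := q
        have : w = Om := hq
        subst this
        rfl }
  rw [← e.tsum_eq]
  rfl

/-- the spectral gap estimate: `x` almost commutes with the unitaries of `a` and `b`; then
`x (Ω ⊗ v)` is close to `Ω ⊗ E(x) v` -/
theorem dist_le {a b : X} (hab : a ≠ b) (C : StarSubalgebra ℂ (l2 Y →L[ℂ] l2 Y))
    {x : BW (FreeGroup X) Y} (hx : x ∈ Bt (FreeGroup X) C)
    (v : l2 Y) (hv : ‖v‖ = 1) (δ : ℝ)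
    (ha : ‖x * u Y (lx a true) - u Y (lx a true) * x‖ ≤ δ)
    (hb : ‖x * u Y (lx b true) - u Y (lx b true) * x‖ ≤ δ) :
    ‖x (Vi (FreeGroup X) v)‖ ^ 2 ≤ ‖E x v‖ ^ 2 + 100 * δ ^ 2 := by
  have h1 := gap (SF Y a) (XF Y X) (pe Y (lx a true)) (pe Y (lx b true)) (SF_h1 a) (SF_h2 hab)
    (SF_h3 hab) (SF_h4 hab) (x (Vi (FreeGroup X) v)) δ
    ((Pool.Agent.W658.ZS.move_le C hx _ v).trans (by rw [hv, mul_one]; exact ha))
    ((Pool.Agent.W658.ZS.move_le C hx _ v).trans (by rw [hv, mul_one]; exact hb))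
  rwa [Qm_XF] at h1

end words

end Pool.Agent.KS6_38.ZS38
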