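import Pool.Agent.KS6_38.ZS38.Cen
import Pool.Agent.KS6_38.ZS38.DB

/-!
MP_37a859_an: assembly.
-/

set_option autoImplicit false
set_option linter.unusedSectionVars false

noncomputable section

open scoped InnerProductSpace TensorProduct Cardinal
open Filter Topology

namespace Pool.Agent.KS6_38.ZS38

open Cardinal
open Pool.CS Pool.CS.N_amp Pool.Agent.H188R3 Pool.Agent.H327R4.Pure
open Pool.Agent.W658.ZS (Wd BW u s r sw PP Om act BB Ca Sh ze Sq Amp norm_dlt star_hom_continuous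
  Bt_le Ca_le PP_mem PP_u Vi norm_Vi y0 gen_mem Amp_mem SW_PP Sh_comm_ze PP_comm_Amp ACa ACa_closed
  As As_of_comm Nuclear)

/-- `B` contains `Z` centrally: there are unital `*`-homomorphisms `g n : Z → B` whose images
asymptotically commute with every element of `B`. -/
def CentrallyContains (B Z : Type) [CStarAlgebra B] [CStarAlgebra Z] : Prop :=
  ∃ g : ℕ → (Z →⋆ₐ[ℂ] B), ∀ (z : Z) (b : B),
    Tendsto (fun n => ‖g n z * b - b * g n z‖) atTop (𝓝 0)

theorem of_contractions {B Z : Type} [CStarAlgebra B] [CStarAlgebra Z] (g : ℕ → (Z →⋆ₐ[ℂ] B))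
    (h : ∀ z : Z, ‖z‖ ≤ 1 → ∀ b : B, Tendsto (fun n => ‖g n z * b - b * g n z‖) atTop (𝓝 0)) :
    ∀ (z : Z) (b : B), Tendsto (fun n => ‖g n z * b - b * g n z‖) atTop (𝓝 0) := by
  intro z b
  by_cases hz : z = 0
  · subst hz
    simp
  · have hz' : 0 < ‖z‖ := norm_pos_iff.2 hz
    have h1 := h (((‖z‖⁻¹ : ℝ) : ℂ) • z) (by
      rw [norm_smul, Complex.norm_real, Real.norm_of_nonneg (by positivity),
        inv_mul_cancel₀ hz'.ne']) b
    have h2 := h1.const_mul ‖z‖
    rw [mul_zero] at h2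
    refine h2.congr fun n => ?_
    rw [map_smul, smul_mul_assoc, mul_smul_comm, ← smul_sub, norm_smul, Complex.norm_real,
      Real.norm_of_nonneg (by positivity), ← mul_assoc, mul_inv_cancel₀ hz'.ne', one_mul]

section cent

variable {Z : Type} [CStarAlgebra Z] {I : Type} (π : Z →⋆ₐ[ℂ] (l2 I →L[ℂ] l2 I))

/-- iterated shift -/
def Shn (I : Type) : ℕ → ((l2 (Sq I) →L[ℂ] l2 (Sq I)) →⋆ₐ[ℂ] (l2 (Sq I) →L[ℂ] l2 (Sq I)))
  | 0 => StarAlgHom.id ℂ _
  | n + 1 => (Sh I).comp (Shn I n)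

lemma Shn_eq (n : ℕ) (x : l2 (Sq I) →L[ℂ] l2 (Sq I)) : Shn I n x = (Sh I)^[n] x := by
  induction n with
  | zero => rfl
  | succ n ih =>
    rw [Function.iterate_succ_apply', ← ih]
    rfl

lemma Shn_add (m n : ℕ) (x : l2 (Sq I) →L[ℂ] l2 (Sq I)) : Shn I (m + n) x = Shn I m (Shn I n x) := by
  rw [Shn_eq, Shn_eq, Shn_eq, Function.iterate_add_apply]

/-- the copy of `Z` at coordinate `n` -/
def gn (G : Type) [Group G] (n : ℕ) : Z →⋆ₐ[ℂ] BB π G :=
  (((Amp G).comp ((Shn I n).comp ((ze I).comp π))) : Z →⋆ₐ[ℂ] BW G (Sq I)).codRestrict (BB π G)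
    (fun z => Amp_mem _ (by
      show Shn I n (ze I (π z)) ∈ Ca π
      rw [Shn_eq]
      exact gen_mem π n z))

lemma gn_coe {G : Type} [Group G] (n : ℕ) (z : Z) :
    ((gn π G n z : BB π G) : BW G (Sq I)) = Amp G (Shn I n (ze I (π z))) := rfl

lemma sh_comm (m n : ℕ) (h : m < n) (z z' : Z) :
    Shn I n (ze I (π z)) * Shn I m (ze I (π z')) = Shn I m (ze I (π z')) * Shn I n (ze I (π z)) := by
  obtain ⟨k, rfl⟩ : ∃ k, n = m + (1 + k) := ⟨n - m - 1, by omega⟩
  have e : Shn I (m + (1 + k)) (ze I (π z)) = Shn I m (Sh I (Shn I k (ze I (π z)))) := by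
    rw [Shn_add, Shn_add]
    rfl
  rw [e, ← map_mul, ← map_mul, Sh_comm_ze]

theorem central_contains (G : Type) [Group G] : CentrallyContains (BB π G) Z := by
  refine ⟨gn π G, ?_⟩
  -- the statement for contractions
  have key : ∀ z : Z, ‖z‖ ≤ 1 → ∀ b : BW G (Sq I), b ∈ BB π G →
      b ∈ ACa (fun n => ((gn π G n z : BB π G) : BW G (Sq I))) := by
    intro z hz b hb
    have hn : ∀ n, ‖((gn π G n z : BB π G) : BW G (Sq I))‖ ≤ 1 := fun n =>
      (Pool.Agent.H188R3.norm_map_le' (gn π G n) z).trans hz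
    have hcl := ACa_closed hn
    have h1 : BB π G ≤ ACa (fun n => ((gn π G n z : BB π G) : BW G (Sq I))) := by
      apply Bt_le G _ _ hcl
      · intro p hp
        have hc : ∀ q ∈ PP G (Sq I), ∀ n, ((gn π G n z : BB π G) : BW G (Sq I)) * q =
            q * ((gn π G n z : BB π G) : BW G (Sq I)) := by
          intro q hq n
          rw [gn_coe]
          exact (PP_comm_Amp hq _).symm
        exact ⟨As_of_comm _ _ (hc p hp), As_of_comm _ _ (hc _ (Pool.Agent.W658.ZS.PP_star hp))⟩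
      · have h3 : Ca π ≤ (ACa (fun n => ((gn π G n z : BB π G) : BW G (Sq I)))).comap (Amp G) := by
          apply Ca_le π
          · exact hcl.preimage (star_hom_continuous (Amp G))
          · intro m z'
            have hc : ∀ z' : Z, As (fun n => ((gn π G n z : BB π G) : BW G (Sq I)))
                (Amp G ((Sh I)^[m] (ze I (π z')))) := by
              intro z'
              refine tendsto_const_nhds.congr' ?_
              filter_upwards [eventually_gt_atTop m] with n hn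
              rw [gn_coe, ← Shn_eq, ← map_mul, ← map_mul, sh_comm π m n hn z z', sub_self, norm_zero]
            refine ⟨hc z', ?_⟩
            show As _ (star (Amp G ((Sh I)^[m] (ze I (π z')))))
            rw [← Shn_eq, ← map_star, ← map_star, ← map_star, ← map_star, Shn_eq]
            exact hc (star z')
        exact fun c hc => h3 hc
    exact h1 hb
  have key' : ∀ z : Z, ‖z‖ ≤ 1 → ∀ b : BB π G,
      Tendsto (fun n => ‖gn π G n z * b - b * gn π G n z‖) atTop (𝓝 0) := fun z hz b =>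
    (key z hz b b.2).1
  exact of_contractions (gn π G) key'

end cent

/-- the main construction -/
theorem main (κ : Cardinal.{0}) (hκ : ℵ₀ ≤ κ) (Z : Type) [CStarAlgebra Z] (hs : SimpleC Z)
    (hZ : Nuclear Z) (τ : Z →ₗ[ℂ] ℂ) (hτ : Pool.Agent.W658.ZS.IsTracialState τ)
    (D : Set Z) (hD : Dense D) (hDκ : #D ≤ κ) :
    ∃ (B : Type) (_ : CStarAlgebra B), HasDensity B κ ∧ SimpleC B ∧
      Pool.Agent.W658.ZS.PurelyInfinite B ∧
      (∃ (f : B →⋆ₐ[ℂ] B) (g : Z →⋆ₐ[ℂ] B), IsMinTensor f g) ∧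
      CentrallyContains B Z ∧ TracialOnCentral B := by
  classical
  obtain ⟨X, rfl⟩ : ∃ X : Type, #X = κ := ⟨κ.out, Cardinal.mk_out κ⟩
  have hX : Infinite X := Cardinal.infinite_iff.2 hκ
  obtain ⟨a, b, hab⟩ := exists_pair_ne X
  obtain ⟨I, i₀, π, hπ⟩ := Pool.Agent.W658.ZS.exists_rep Z τ hτ.one hτ.pos
  have hI : Nonempty I := ⟨i₀⟩
  have hinf : Infinite (FreeGroup X) :=
    Infinite.of_injective (FreeGroup.of : X → FreeGroup X) FreeGroup.of_injective
  have hcomp := Pool.Agent.W658.ZS.BB_compress π (FreeGroup X) hs hZ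
  have hnt : Nontrivial (BB π (FreeGroup X)) := by
    refine ⟨⟨1, 0, fun h => ?_⟩⟩
    have h1 : (1 : BW (FreeGroup X) (Sq I)) = 0 := congrArg Subtype.val h
    have h2 := congrArg (fun T : BW (FreeGroup X) (Sq I) => ‖T (dlt (Om, y0 i₀))‖) h1
    simp only [one_apply_eq_self, zero_apply, norm_zero, norm_dlt] at h2
    exact one_ne_zero h2
  refine ⟨BB π (FreeGroup X), inferInstance, BB_density π D hD hDκ,
    Pool.Agent.W658.ZS.simple_of_compress hcomp, ?_,
    ⟨Pool.Agent.W658.ZS.fB π (FreeGroup X), Pool.Agent.W658.ZS.gB π (FreeGroup X),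
      Pool.Agent.W658.ZS.isMinTensor π (FreeGroup X) hs hZ⟩, central_contains π _, ?_⟩
  · refine Pool.Agent.W658.ZS.pi_of_compress hcomp ?_
    refine ⟨⟨s (Sq I) (FreeGroup.of a), PP_mem _ (Pool.Agent.W658.ZS.PP_s _)⟩,
      Subtype.ext (Pool.Agent.W658.ZS.star_s_mul_s _), fun h => ?_⟩
    have hne : (FreeGroup.of a : FreeGroup X) ≠ FreeGroup.of b :=
      fun h => hab (FreeGroup.of_injective h)
    have h1 : s (Sq I) (FreeGroup.of a) * star (s (Sq I) (FreeGroup.of a)) = 1 :=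
      congrArg Subtype.val h
    have h2 : s (Sq I) (FreeGroup.of b) = 0 := by
      calc s (Sq I) (FreeGroup.of b) = s (Sq I) (FreeGroup.of a) *
            star (s (Sq I) (FreeGroup.of a)) * s (Sq I) (FreeGroup.of b) := by rw [h1, one_mul]
        _ = s (Sq I) (FreeGroup.of a) *
            (star (s (Sq I) (FreeGroup.of a)) * s (Sq I) (FreeGroup.of b)) := by rw [mul_assoc]
        _ = 0 := by rw [Pool.Agent.W658.ZS.star_s_mul_s_ne hne, mul_zero]
    have h3 := Pool.Agent.W658.ZS.star_s_mul_s (Y := Sq I) (FreeGroup.of b)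
    rw [h2, mul_zero] at h3
    have h4 : (1 : BB π (FreeGroup X)) = 0 := Subtype.ext h3.symm
    exact one_ne_zero h4
  · set w : l2 (Wd (FreeGroup X) × Sq I) := Vi (FreeGroup X) (dlt (y0 i₀)) with hw
    have hwn : ‖w‖ = 1 := by rw [hw, norm_Vi, norm_dlt]
    have hww : ⟪w, w⟫_ℂ = 1 := by
      rw [inner_self_eq_norm_sq_to_K, hwn]; simp
    let φ : BB π (FreeGroup X) →ₗ[ℂ] ℂ :=
      { toFun := fun x => ⟪w, (x : BW (FreeGroup X) (Sq I)) w⟫_ℂ
        map_add' := fun x y => by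
          show ⟪w, (x : BW (FreeGroup X) (Sq I)) w + (y : BW (FreeGroup X) (Sq I)) w⟫_ℂ = _
          rw [inner_add_right]
        map_smul' := fun c x => by
          show ⟪w, c • (x : BW (FreeGroup X) (Sq I)) w⟫_ℂ = _
          rw [inner_smul_right]; rfl }
    have hφ : ∀ x, φ x = ⟪w, (x : BW (FreeGroup X) (Sq I)) w⟫_ℂ := fun x => rfl
    have huu : ∀ g : FreeGroup X, star (u (Sq I) g) * u (Sq I) g = 1 ∧
        u (Sq I) g * star (u (Sq I) g) = 1 := by
      intro g
      rw [Pool.Agent.W658.ZS.star_u, Pool.Agent.W658.ZS.u_mul_u, Pool.Agent.W658.ZS.u_mul_u,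
        inv_mul_cancel, mul_inv_cancel]
      exact ⟨Pool.Agent.W658.ZS.u_one, Pool.Agent.W658.ZS.u_one⟩
    refine ⟨φ, ⟨u (Sq I) (lx a true), PP_mem _ (PP_u _)⟩, ⟨u (Sq I) (lx b true), PP_mem _ (PP_u _)⟩,
      ⟨?_, ?_⟩, ⟨Subtype.ext (huu _).1, Subtype.ext (huu _).2⟩,
      ⟨Subtype.ext (huu _).1, Subtype.ext (huu _).2⟩, ?_⟩
    · rw [hφ]
      exact hww
    · intro x
      have e : φ (star x * x) = ((‖(x : BW (FreeGroup X) (Sq I)) w‖ ^ 2 : ℝ) : ℂ) := by
        rw [hφ]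
        show ⟪w, star (x : BW (FreeGroup X) (Sq I)) ((x : BW (FreeGroup X) (Sq I)) w)⟫_ℂ = _
        rw [ContinuousLinearMap.star_eq_adjoint, ContinuousLinearMap.adjoint_inner_right,
          inner_self_eq_norm_sq_to_K, Complex.ofReal_pow]
        rfl
      rw [e]
      exact ⟨by rw [Complex.ofReal_re]; positivity, Complex.ofReal_im _⟩
    · intro x y δ h1 h2 h3 h4
      rw [hφ, hφ]
      exact tracial hab (Ca π) (Pool.Agent.W658.ZS.Ca_closed π) (dlt (y0 i₀)) (norm_dlt _)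
        (fun a ha b hb => Pool.Agent.W658.ZS.Ca_trace π i₀ τ hτ.comm hπ a b ha hb) x.2 y.2 δ
        h1 h2 h3 h4

end Pool.Agent.KS6_38.ZS38
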