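import Pool.Agent.KS6_38.ZS38.Free

/-!
MP_37a859_an: the tracial estimate.
-/

set_option autoImplicit false
set_option linter.unusedSectionVars false

noncomputable section

open scoped InnerProductSpace

namespace Pool.Agent.KS6_38.ZS38

open Pool.CS Pool.CS.N_amp
open Pool.Agent.W658.ZS (Wd BW u s r sw PP Om act rgt pe Qm gap Vi Vr E Bt Res Amp pe_eq_nil
  pe_eq_cons pe_symm inner_E E_star E_mem inner_Ext_left inner_Ext_right Vr_Vi norm_Vi E_apply)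

section split

variable {G : Type} [Group G] {Y : Type}

lemma inner_Vi_left (v : l2 Y) (f : l2 (Wd G × Y)) : ⟪Vi G v, f⟫_ℂ = ⟪v, Vr G f⟫_ℂ :=
  inner_Ext_left _ _ _ _

lemma inner_Vi_right (v : l2 Y) (f : l2 (Wd G × Y)) : ⟪f, Vi G v⟫_ℂ = ⟪Vr G f, v⟫_ℂ :=
  inner_Ext_right _ _ _ _

lemma inner_split (f g : l2 (Wd G × Y)) : ⟪f, g⟫_ℂ - ⟪Vr G f, Vr G g⟫_ℂ =
    ⟪f - Vi G (Vr G f), g - Vi G (Vr G g)⟫_ℂ := by
  rw [inner_sub_left, inner_sub_right, inner_sub_right, inner_Vi_left, inner_Vi_left,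
    inner_Vi_right, Vr_Vi]
  ring

lemma norm_split (f : l2 (Wd G × Y)) : ‖f - Vi G (Vr G f)‖ ^ 2 = ‖f‖ ^ 2 - ‖Vr G f‖ ^ 2 := by
  have h := inner_split f f
  rw [inner_self_eq_norm_sq_to_K, inner_self_eq_norm_sq_to_K, inner_self_eq_norm_sq_to_K] at h
  have h2 : ((‖f‖ ^ 2 - ‖Vr G f‖ ^ 2 : ℝ) : ℂ) = ((‖f - Vi G (Vr G f)‖ ^ 2 : ℝ) : ℂ) := by
    push_cast
    exact h
  exact (Complex.ofReal_injective h2).symm

lemma inner_close {f g : l2 (Wd G × Y)} {c : ℝ} (hc : 0 ≤ c)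
    (hf : ‖f‖ ^ 2 ≤ ‖Vr G f‖ ^ 2 + c ^ 2) (hg : ‖g‖ ^ 2 ≤ ‖Vr G g‖ ^ 2 + c ^ 2) :
    ‖⟪f, g⟫_ℂ - ⟪Vr G f, Vr G g⟫_ℂ‖ ≤ c ^ 2 := by
  rw [inner_split]
  have h1 : ‖f - Vi G (Vr G f)‖ ≤ c := by
    have := norm_split f
    exact abs_le_of_sq_le_sq' (by linarith) hc |>.2
  have h2 : ‖g - Vi G (Vr G g)‖ ≤ c := by
    have := norm_split g
    exact abs_le_of_sq_le_sq' (by linarith) hc |>.2
  calc ‖⟪f - Vi G (Vr G f), g - Vi G (Vr G g)⟫_ℂ‖
      ≤ ‖f - Vi G (Vr G f)‖ * ‖g - Vi G (Vr G g)‖ := norm_inner_le_norm _ _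
    _ ≤ c * c := by gcongr
    _ = c ^ 2 := (sq c).symm

end split

lemma norm_comm_star {A : Type} [CStarAlgebra A] (x w : A) (h1 : star w * w = 1)
    (h2 : w * star w = 1) : ‖star x * w - w * star x‖ ≤ ‖x * w - w * x‖ := by
  have hw : ‖w‖ ≤ 1 := by
    have h := congrArg norm h1
    rw [CStarRing.norm_star_mul_self] at h
    have : ‖(1 : A)‖ ≤ 1 := by
      rcases subsingleton_or_nontrivial A with h | h
      · rw [Subsingleton.elim (1 : A) 0, norm_zero]; exact zero_le_one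
      · exact CStarRing.norm_one.le
    nlinarith [norm_nonneg w]
  have e : star x * w - w * star x = w * star (x * w - w * x) * w := by
    rw [star_sub, star_mul, star_mul, mul_sub, sub_mul]
    have e1 : w * (star w * star x) * w = star x * w := by
      rw [← mul_assoc w, h2, one_mul]
    have e2 : w * (star x * star w) * w = w * star x := by
      calc w * (star x * star w) * w = w * star x * (star w * w) := by noncomm_ring
        _ = _ := by rw [h1, mul_one]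
    rw [e1, e2]
  rw [e]
  calc ‖w * star (x * w - w * x) * w‖ ≤ ‖w * star (x * w - w * x)‖ * ‖w‖ := norm_mul_le _ _
    _ ≤ ‖w‖ * ‖star (x * w - w * x)‖ * ‖w‖ := by gcongr; exact norm_mul_le _ _
    _ ≤ 1 * ‖star (x * w - w * x)‖ * 1 := by gcongr
    _ = _ := by rw [norm_star, one_mul, mul_one]

section tr

variable {X : Type} [DecidableEq X] {Y : Type}

/-- **tracial estimate**: the vector state of `Ω ⊗ v` is almost tracial on the elements which almost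
commute with the two unitaries. -/
theorem tracial {a b : X} (hab : a ≠ b) (C : StarSubalgebra ℂ (l2 Y →L[ℂ] l2 Y))
    (hC : IsClosed (C : Set (l2 Y →L[ℂ] l2 Y))) (v : l2 Y) (hv : ‖v‖ = 1)
    (htr : ∀ a ∈ C, ∀ b ∈ C, ⟪v, (a * b) v⟫_ℂ = ⟪v, (b * a) v⟫_ℂ)
    {x y : BW (FreeGroup X) Y} (hx : x ∈ Bt (FreeGroup X) C) (hy : y ∈ Bt (FreeGroup X) C) (δ : ℝ)
    (hxa : ‖x * u Y (lx a true) - u Y (lx a true) * x‖ ≤ δ)
    (hxb : ‖x * u Y (lx b true) - u Y (lx b true) * x‖ ≤ δ)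
    (hya : ‖y * u Y (lx a true) - u Y (lx a true) * y‖ ≤ δ)
    (hyb : ‖y * u Y (lx b true) - u Y (lx b true) * y‖ ≤ δ) :
    ‖⟪Vi (FreeGroup X) v, (x * y) (Vi (FreeGroup X) v)⟫_ℂ -
      ⟪Vi (FreeGroup X) v, (y * x) (Vi (FreeGroup X) v)⟫_ℂ‖ ≤ 200 * δ ^ 2 := by
  have hδ : 0 ≤ δ := (norm_nonneg _).trans hxa
  have hu : ∀ g : FreeGroup X, star (u Y g) * u Y g = 1 ∧ u Y g * star (u Y g) = 1 := by
    intro g
    rw [Pool.Agent.W658.ZS.star_u, Pool.Agent.W658.ZS.u_mul_u, Pool.Agent.W658.ZS.u_mul_u,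
      inv_mul_cancel, mul_inv_cancel]
    exact ⟨Pool.Agent.W658.ZS.u_one, Pool.Agent.W658.ZS.u_one⟩
  have key : ∀ z w : BW (FreeGroup X) Y, z ∈ Bt (FreeGroup X) C → w ∈ Bt (FreeGroup X) C →
      ‖z * u Y (lx a true) - u Y (lx a true) * z‖ ≤ δ →
      ‖z * u Y (lx b true) - u Y (lx b true) * z‖ ≤ δ →
      ‖w * u Y (lx a true) - u Y (lx a true) * w‖ ≤ δ →
      ‖w * u Y (lx b true) - u Y (lx b true) * w‖ ≤ δ →
      ‖⟪Vi (FreeGroup X) v, (z * w) (Vi (FreeGroup X) v)⟫_ℂ - ⟪v, (E z * E w) v⟫_ℂ‖ ≤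
        100 * δ ^ 2 := by
    intro z w hz hw hza hzb hwa hwb
    have h1 := dist_le hab C (star_mem hz) v hv δ
      ((norm_comm_star z _ (hu _).1 (hu _).2).trans hza)
      ((norm_comm_star z _ (hu _).1 (hu _).2).trans hzb)
    have h2 := dist_le hab C hw v hv δ hwa hwb
    have h3 := inner_close (f := star z (Vi (FreeGroup X) v)) (g := w (Vi (FreeGroup X) v))
      (c := 10 * δ) (by positivity) (by rw [E_apply] at h1; linarith)
      (by rw [E_apply] at h2; linarith)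
    have e1 : ⟪star z (Vi (FreeGroup X) v), w (Vi (FreeGroup X) v)⟫_ℂ =
        ⟪Vi (FreeGroup X) v, (z * w) (Vi (FreeGroup X) v)⟫_ℂ := by
      rw [ContinuousLinearMap.star_eq_adjoint, ContinuousLinearMap.adjoint_inner_left]
      rfl
    have e2 : ⟪Vr (FreeGroup X) (star z (Vi (FreeGroup X) v)),
        Vr (FreeGroup X) (w (Vi (FreeGroup X) v))⟫_ℂ = ⟪v, (E z * E w) v⟫_ℂ := by
      rw [← E_apply, ← E_apply, E_star, ContinuousLinearMap.star_eq_adjoint,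
        ContinuousLinearMap.adjoint_inner_left]
      rfl
    rw [e1, e2] at h3
    calc _ ≤ _ := h3
      _ = _ := by ring
  have k1 := key x y hx hy hxa hxb hya hyb
  have k2 := key y x hy hx hya hyb hxa hxb
  rw [htr _ (E_mem hC hx) _ (E_mem hC hy)] at k1
  have e : ⟪Vi (FreeGroup X) v, (x * y) (Vi (FreeGroup X) v)⟫_ℂ -
      ⟪Vi (FreeGroup X) v, (y * x) (Vi (FreeGroup X) v)⟫_ℂ =
      (⟪Vi (FreeGroup X) v, (x * y) (Vi (FreeGroup X) v)⟫_ℂ - ⟪v, (E y * E x) v⟫_ℂ) -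
      (⟪Vi (FreeGroup X) v, (y * x) (Vi (FreeGroup X) v)⟫_ℂ - ⟪v, (E y * E x) v⟫_ℂ) := by ring
  rw [e]
  refine (norm_sub_le _ _).trans ?_
  linarith

end tr

end Pool.Agent.KS6_38.ZS38
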